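import Pool.Agent.H521R3.Oz.Sub

/-!
The set of end points of a critical submanifold of the energy of a taut submanifold need not be
taut (for `ℝⁿ` it is taut, Ozawa 1986).

`N = ℂ × ℝ` with the metric `|dw|² + cosh²(Re w) dy²`, that is, `N = H² × ℝ`; `M` is the boundary
`|w| = 1` of the tube of radius `1` about the geodesic `w = 0`, `p = (0, 0)` lies on this geodesic
and the only critical submanifold of `E_p` consists of the segments from `p` to the circle
`C = {|w| = 1, y = 0}`. The planes `y = const` are totally geodesic and flat, hence `M` is taut.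
But the point `q = (0, 1)` is joined to `C` by (at least) the four normal geodesics which start at
the points `w = ±1, ±i`; it is not a focal point of `C` and `P(N, C × q)` has the homotopy type of
a circle.
-/

namespace Pool.Agent.Results.MP_5c6b81_gt.CriticalSetNotTaut

open Pool.Agent.Helper10.Dupin
open Pool.Agent.H521R3.Oz

/-- Negative answer to Q1: in the complete Riemannian manifold `(ℂ × ℝ, hyp)`, isometric to
`H² × ℝ`, the closed surface `cyl` is taut, the closed curve `circ` is the set of end points of a
critical submanifold of the energy `E_0` on `P(ℂ × ℝ, cyl × 0)`, and `circ` is not taut. -/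
theorem result :
    IsCompleteMetric hyp ∧ IsClosed cyl ∧ IsSubmanifold cyl 2 ∧ IsTaut₂ hyp cyl ∧
      IsClosed circ ∧ IsSubmanifold circ 1 ∧
      (∃ Ct, IsCriticalSubmanifold hyp cyl 0 Ct ∧ endPoints 0 Ct = circ) ∧ ¬ IsTaut₂ hyp circ :=
  ⟨complete_hyp, cyl_sub.1, cyl_sub.2, taut_cyl, circ_sub.1, circ_sub.2, critical_submanifold,
    not_taut_circ⟩

end Pool.Agent.Results.MP_5c6b81_gt.CriticalSetNotTaut
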